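import Pool.Agent.H4.MT.Fin
import Pool.Agent.H4.MT.Cnt
import Pool.Agent.Results.MP_39df77_nt.MeanSquareThickSets

set_option autoImplicit false

/-!
# MP_39df77_nt: the sixth moment and all other moments over the heights with prescribed large fluctuations at many scales

No hypothesis is made.  A set `S` of heights in `[T, 2T]` is called thick (with the constants `c₀`, `θ₀`) if it carries at least
the share `c₀` of the mean square of every Dirichlet polynomial of length at most `T^θ₀`.  For `α > 1`, `a = α / log T`, let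

`ratio = log |ζ(1/2 + i(t+a)) / ζ(1/2 + i(t-a))| / √(log α)`,   `excess = (π (N(t+a) - N(t-a)) - α) / √(log α)`;

for `α → ∞` after `T → ∞` this is close to a pair of independent standard normal variables.

1. EVERY thick set `S` meets EVERY disc of radius `1 + 8/√c₀` of the plane of this pair in a thick set, for all large `α`; the
centre may be arbitrarily far away.
2. EVERY thick set meets every pattern of signs of the `2m` statistics at `m` suitable scales `α_1 < … < α_m`, all of them of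
absolute value at least `K`, in a thick set; the scales do not depend on the pattern of signs or on the thick set, and they may
be taken arbitrarily large and arbitrarily far from each other.
3. These sets carry all the moments of zeta, of all real orders, with the order of magnitude which is expected for the whole
interval; for order six this is `T (log T)^9`.  So for all `t` in `[T, 2T]` and for those with `N(t) ≡ a mod q`, `q ≤ 6`.

Proof of 1: multiply the Dirichlet polynomial by a truncated exponential of the prime sum which represents the pair; this tilts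
the pair to the given point with a bounded variance.  The scales of 2 are chosen one after the other.
-/

open Filter Topology MeasureTheory Complex Set

namespace Pool.Agent.Results.MP_39df77_nt.FluctuationsOnThickSets

noncomputable section

/-- the Dirichlet polynomial with the coefficients `b` and length `M` -/
def D (M : ℕ) (b : ℕ → ℂ) (t : ℝ) : ℂ := ∑ n ∈ Finset.Icc 1 M, b n * (n : ℂ) ^ (-(1 / 2 + t * I))

/-- the measurable set `S ⊆ [T, 2T]` carries at least the share `c₀` of the mean square of every Dirichlet polynomial of length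
at most `T^θ₀` -/
def Thick (c₀ θ₀ T : ℝ) (S : Set ℝ) : Prop := MeasurableSet S ∧ S ⊆ Set.Icc T (2 * T) ∧
  ∀ (M : ℕ) (b : ℕ → ℂ), (M : ℝ) ≤ T ^ θ₀ → c₀ * (T * ∑ n ∈ Finset.Icc 1 M, ‖b n‖ ^ 2 / n) ≤ ∫ t in S, ‖D M b t‖ ^ 2

/-- the nontrivial zeros of zeta with ordinate in `(a, b]` -/
def zeros (a b : ℝ) : Set ℂ := {s : ℂ | riemannZeta s = 0 ∧ 0 < s.re ∧ s.re < 1 ∧ a < s.im ∧ s.im ≤ b}

/-- `N(T)`, the number of the nontrivial zeros with ordinate in `(0, T]`, with multiplicity -/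
def N (T : ℝ) : ℕ := ∑ᶠ s ∈ zeros 0 T, analyticOrderNatAt riemannZeta s

/-- the logarithm of the quotient of the moduli at `t + a` and `t - a`, `a = α / log T`, divided by `√(log α)` -/
def ratio (α T t : ℝ) : ℝ :=
  (Real.log ‖riemannZeta (1 / 2 + ((t + α / Real.log T : ℝ) : ℂ) * I)‖ -
    Real.log ‖riemannZeta (1 / 2 + ((t - α / Real.log T : ℝ) : ℂ) * I)‖) / Real.sqrt (Real.log α)

/-- `π` times the number of zeros with ordinate in `(t - a, t + a]` minus its mean `α`, divided by `√(log α)` -/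
def excess (α T t : ℝ) : ℝ :=
  (Real.pi * ((N (t + α / Real.log T) : ℝ) - N (t - α / Real.log T)) - α) / Real.sqrt (Real.log α)

/-- the `t ∈ S` at which `ratio` is within `r` of `x` and `excess` within `r` of `y` -/
def near (r x y α T : ℝ) (S : Set ℝ) : Set ℝ := {t ∈ S | |ratio α T t - x| ≤ r ∧ |excess α T t - y| ≤ r}

/-- the `t ∈ S` at which, for each of the scales `α_i`, `ratio` and `excess` have absolute values at least `K` and the signs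
`σ_i` and `τ_i` -/
def pattern {m : ℕ} (α σ τ : Fin m → ℝ) (K T : ℝ) (S : Set ℝ) : Set ℝ :=
  {t ∈ S | ∀ i, K ≤ σ i * ratio (α i) T t ∧ K ≤ τ i * excess (α i) T t}

/-- the set `S` carries the moments of zeta of all real orders `2β`, `|β| ≤ A`, up to the constant `κ` with the order of
magnitude which is expected for the whole interval; `β = 3` is the sixth moment -/
def FullMoments (κ A T : ℝ) (S : Set ℝ) : Prop := ∀ β h : ℝ, |β| ≤ A → |h| ≤ T / 2 →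
  ENNReal.ofReal (κ * T * Real.log T ^ (β ^ 2)) ≤
    ∫⁻ t in S, ENNReal.ofReal (‖riemannZeta (1 / 2 + ((t + h : ℝ) : ℂ) * I)‖ ^ (2 * β))

open Pool.Agent.H4.MZ (Rr Ri Rr_meas Ri_meas)

lemma N_idx (T : ℝ) : N T = Pool.Agent.Q32.Idx.N 0 T := rfl

lemma N_old (T : ℝ) : N T = MeanSquareThickSets.N T := rfl

lemma N_meas : Measurable N := MeanSquareThickSets.N_monotone.measurable

lemma ratio_meas (α T : ℝ) : Measurable (ratio α T) := Rr_meas α T

lemma excess_meas (α T : ℝ) : Measurable (excess α T) := by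
  have h1 : Measurable fun t : ℝ => (N (t + α / Real.log T) : ℝ) :=
    (measurable_from_nat (f := fun n : ℕ => (n : ℝ))).comp (N_meas.comp (measurable_id.add_const _))
  have h2 : Measurable fun t : ℝ => (N (t - α / Real.log T) : ℝ) :=
    (measurable_from_nat (f := fun n : ℕ => (n : ℝ))).comp (N_meas.comp (measurable_id.sub_const _))
  exact (((h1.sub h2).const_mul _).sub_const _).div_const _

lemma excess_eq {α T t : ℝ} (h : 16 ≤ T) (hα : 0 ≤ α) (hL : 2 * α + 1 ≤ Real.log T) (h1 : T ≤ t) (h2 : t ≤ 2 * T) :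
    excess α T t = Ri α T t := by
  unfold excess Ri
  rw [N_idx, N_idx, Pool.Agent.H4.MT.N_Cn h hα hL h1 h2]

lemma near_meas {r x y α T : ℝ} {S : Set ℝ} (hS : MeasurableSet S) : MeasurableSet (near r x y α T S) := by
  have h1 : Measurable fun t => |ratio α T t - x| := ((ratio_meas α T).sub_const _).abs
  have h2 : Measurable fun t => |excess α T t - y| := ((excess_meas α T).sub_const _).abs
  exact hS.inter ((measurableSet_le h1 measurable_const).inter (measurableSet_le h2 measurable_const))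

lemma pattern_meas {m : ℕ} {α σ τ : Fin m → ℝ} {K T : ℝ} {S : Set ℝ} (hS : MeasurableSet S) :
    MeasurableSet (pattern α σ τ K T S) := by
  have h1 : ∀ i, MeasurableSet {t | K ≤ σ i * ratio (α i) T t} := fun i =>
    measurableSet_le measurable_const ((ratio_meas (α i) T).const_mul _)
  have h2 : ∀ i, MeasurableSet {t | K ≤ τ i * excess (α i) T t} := fun i =>
    measurableSet_le measurable_const ((excess_meas (α i) T).const_mul _)
  have e : pattern α σ τ K T S = S ∩ ⋂ i, ({t | K ≤ σ i * ratio (α i) T t} ∩ {t | K ≤ τ i * excess (α i) T t}) := by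
    ext t
    simp only [pattern, Set.mem_inter_iff, Set.mem_iInter, Set.mem_ofPred_eq]
  rw [e]
  exact hS.inter (MeasurableSet.iInter fun i => (h1 i).inter (h2 i))

lemma thick_mono {c θ T : ℝ} {S S' : Set ℝ} (h : Thick c θ T S') (hs : S' ⊆ S) (hm : MeasurableSet S)
    (hI : S ⊆ Set.Icc T (2 * T)) : Thick c θ T S := by
  refine ⟨hm, hI, fun M b hM => (h.2.2 M b hM).trans ?_⟩
  have hc : Continuous fun t : ℝ => ‖D M b t‖ ^ 2 := (Pool.Agent.H4.PX.dp_cont M b).norm.pow 2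
  exact setIntegral_mono_set (hc.integrableOn_Icc.mono_set hI) (Eventually.of_forall fun t => by positivity)
    (Eventually.of_forall hs)

lemma norm_xy {R x y : ℝ} (hx : |x| ≤ R) (hy : |y| ≤ R) : ‖(⟨x, y⟩ : ℂ)‖ ≤ 2 * R := by
  refine (Complex.norm_le_abs_re_add_abs_im _).trans ?_
  simp only
  linarith

/-- one scale -/
theorem oneScale {c₀ θ₀ : ℝ} (hc₀ : 0 < c₀) (hθ₀ : 0 < θ₀) (R : ℝ) : ∃ c₁ α₀ : ℝ, 0 < c₁ ∧ ∀ α : ℝ, α₀ ≤ α →
    ∃ θ T₀ : ℝ, 0 < θ ∧ ∀ T : ℝ, T₀ ≤ T → ∀ S : Set ℝ, Thick c₀ θ₀ T S → ∀ x y : ℝ, |x| ≤ R → |y| ≤ R →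
      Thick c₁ θ T (near (1 + 8 / Real.sqrt c₀) x y α T S) := by
  obtain ⟨c₁, A₀, hc₁, hA₀, h⟩ := Pool.Agent.H4.MT.hTAIL c₀ θ₀ (2 * |R|) hc₀ hθ₀ (by positivity)
  refine ⟨c₁, A₀, hc₁, fun α hα => ?_⟩
  obtain ⟨θ, hθ, -, h⟩ := h α hα
  obtain ⟨T₀, hT₀⟩ := eventually_atTop.1 (h.and ((eventually_ge_atTop (16 : ℝ)).and
    (Real.tendsto_log_atTop.eventually_ge_atTop (2 * α + 1))))
  refine ⟨θ, T₀, hθ, fun T hT S hS x y hx hy => ?_⟩
  obtain ⟨g1, g2, g3⟩ := hT₀ T hT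
  obtain ⟨hSm, hST, hth⟩ := hS
  have e : near (1 + 8 / Real.sqrt c₀) x y α T S = S ∩ {t | |Rr α T t - (⟨x, y⟩ : ℂ).re| ≤ 1 + 8 / Real.sqrt c₀ ∧
      |Ri α T t - (⟨x, y⟩ : ℂ).im| ≤ 1 + 8 / Real.sqrt c₀} := by
    ext t
    unfold near
    simp only [Set.mem_ofPred_eq, Set.mem_inter_iff]
    constructor
    · rintro ⟨h1, h2, h3⟩
      refine ⟨h1, h2, ?_⟩
      rw [← excess_eq g2 (by linarith) g3 (hST h1).1 (hST h1).2]
      exact h3
    · rintro ⟨h1, h2, h3⟩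
      refine ⟨h1, h2, ?_⟩
      rw [excess_eq g2 (by linarith) g3 (hST h1).1 (hST h1).2]
      exact h3
  refine ⟨near_meas hSm, fun t ht => hST ht.1, fun M b hM => ?_⟩
  rw [e]
  exact g1 S hSm hST (fun M hM b => hth M b hM) ⟨x, y⟩
    (norm_xy (hx.trans (le_abs_self R)) (hy.trans (le_abs_self R))) M hM b

/-- many scales -/
theorem scales (m : ℕ) : ∀ c₀ θ₀ K B : ℝ, 0 < c₀ → 0 < θ₀ → 1 ≤ B →
    ∃ α : Fin m → ℝ, (∀ i, B ≤ α i) ∧ (∀ i j, i < j → B * α i ≤ α j) ∧ ∃ c₁ θ T₀ : ℝ, 0 < c₁ ∧ 0 < θ ∧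
      ∀ T : ℝ, T₀ ≤ T → ∀ S : Set ℝ, Thick c₀ θ₀ T S → ∀ σ τ : Fin m → ℝ, (∀ i, |σ i| = 1 ∧ |τ i| = 1) →
        Thick c₁ θ T (pattern α σ τ K T S) := by
  induction m with
  | zero =>
    intro c₀ θ₀ K B hc₀ hθ₀ hB
    refine ⟨Fin.elim0, fun i => i.elim0, fun i => i.elim0, c₀, θ₀, 0, hc₀, hθ₀, fun T hT S hS σ τ _ => ?_⟩
    exact thick_mono hS (fun t ht => ⟨ht, fun i => i.elim0⟩) (pattern_meas hS.1) (fun t ht => hS.2.1 ht.1)
  | succ m ih =>
    intro c₀ θ₀ K B hc₀ hθ₀ hB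
    set r : ℝ := 1 + 8 / Real.sqrt c₀ with hr
    have hr0 : 0 < r := by positivity
    obtain ⟨c₁, α₀, hc₁, h⟩ := oneScale hc₀ hθ₀ (|K| + r)
    set a : ℝ := max α₀ B with ha
    have haB : B ≤ a := le_max_right _ _
    have hBa : B ≤ B * a := by nlinarith
    obtain ⟨θ, T₀, hθ, h⟩ := h a (le_max_left _ _)
    obtain ⟨α, k1, k2, c₂, θ₂, T₁, hc₂, hθ₂, k3⟩ := ih c₁ θ K (B * a) hc₁ hθ (by linarith)
    refine ⟨Fin.cons a α, ?_, ?_, c₂, θ₂, max T₀ T₁, hc₂, hθ₂, fun T hT S hS σ τ hst => ?_⟩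
    · intro i
      refine Fin.cases ?_ (fun i => ?_) i
      · rw [Fin.cons_zero]; exact haB
      · rw [Fin.cons_succ]; exact hBa.trans (k1 i)
    · intro i j
      refine Fin.cases ?_ (fun i => ?_) i
      · refine Fin.cases ?_ (fun j => ?_) j
        · intro h1; exact absurd h1 (lt_irrefl _)
        · intro _
          rw [Fin.cons_zero, Fin.cons_succ]
          exact k1 j
      · refine Fin.cases ?_ (fun j => ?_) j
        · intro h1; exact absurd h1 (Fin.not_lt_zero _)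
        · intro h1
          rw [Fin.cons_succ, Fin.cons_succ]
          refine le_trans ?_ (k2 i j (Fin.succ_lt_succ_iff.1 h1))
          exact mul_le_mul_of_nonneg_right hBa (by linarith [k1 i])
    · have hx : ∀ s : ℝ, |s| = 1 → |s * (|K| + r)| ≤ |K| + r := fun s hs => by
        rw [abs_mul, hs, one_mul, abs_of_nonneg (by positivity)]
      have hsq : ∀ s v : ℝ, |s| = 1 → |v - s * (|K| + r)| ≤ r → K ≤ s * v := fun s v hs hv => by
        have e1 : s * s = 1 := by rw [← abs_mul_abs_self, hs, one_mul]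
        have e2 : |s * (v - s * (|K| + r))| ≤ r := by rw [abs_mul, hs, one_mul]; exact hv
        have e3 : s * (v - s * (|K| + r)) = s * v - (|K| + r) := by
          linear_combination (-(|K| + r)) * e1
        rw [e3] at e2
        linarith [(abs_le.1 e2).1, le_abs_self K]
      have g1 := h T ((le_max_left _ _).trans hT) S hS (σ 0 * (|K| + r)) (τ 0 * (|K| + r)) (hx _ (hst 0).1) (hx _ (hst 0).2)
      have g2 := k3 T ((le_max_right _ _).trans hT) _ g1 (fun i => σ i.succ) (fun i => τ i.succ) (fun i => hst i.succ)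
      refine thick_mono g2 (fun t ht => ?_) (pattern_meas hS.1) (fun t ht => hS.2.1 ht.1)
      obtain ⟨⟨u1, u2, u3⟩, u4⟩ := ht
      refine ⟨u1, fun i => ?_⟩
      refine Fin.cases ?_ (fun i => ?_) i
      · rw [Fin.cons_zero]
        exact ⟨hsq _ _ (hst 0).1 u2, hsq _ _ (hst 0).2 u3⟩
      · rw [Fin.cons_succ]
        exact u4 i

/-- the moments over thick sets -/
theorem moments {c₁ θ : ℝ} (hc₁ : 0 < c₁) (hθ : 0 < θ) (A : ℝ) : ∃ κ T₀ : ℝ, 0 < κ ∧ ∀ T : ℝ, T₀ ≤ T →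
    ∀ S : Set ℝ, Thick c₁ θ T S → FullMoments κ A T S := by
  obtain ⟨κ, T₀, hκ, h⟩ := MeanSquareThickSets.oneValue (A := max A 1) (le_max_right _ _) hc₁ hθ
  exact ⟨κ, T₀, hκ, fun T hT S hS β hh hβ hhT => h T hT S hS β hh (hβ.trans (le_max_left _ _)) hhT⟩

/-- the residue classes of `N(t)` are thick -/
theorem classes {q : ℕ} (hq : 1 ≤ q) (hq6 : q ≤ 6) (a : ℕ) : ∃ c₁ θ T₀ : ℝ, 0 < c₁ ∧ 0 < θ ∧ ∀ T : ℝ, T₀ ≤ T →
    Thick c₁ θ T {t : ℝ | T ≤ t ∧ t ≤ 2 * T ∧ N t ≡ a [MOD q]} := by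
  have hc' : MeanSquareThickSets.c ≤ 1.3274995 := Pool.Agent.Q97.UM.cMT_strict
  obtain ⟨q', hq'3, hq'6, hdvd⟩ : ∃ q' : ℕ, 3 ≤ q' ∧ q' ≤ 6 ∧ q ∣ q' := by
    rcases Nat.lt_or_ge q 3 with h | h
    · refine ⟨4, by norm_num, by norm_num, ?_⟩
      interval_cases q <;> norm_num
    · exact ⟨q, h, hq6, dvd_rfl⟩
  have h3 : (0 : ℝ) < q' := by exact_mod_cast (by omega : 0 < q')
  have h4 : (q' : ℝ) ≤ 6 := by exact_mod_cast hq'6
  have h5 : (1 : ℝ) / 6 ≤ 1 / q' := one_div_le_one_div_of_le h3 h4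
  obtain ⟨d, c₁, θ, T₀, hd, hc₁, hθ, h6⟩ := MeanSquareThickSets.aboveThick (k := 2) (I := {n | n ≡ a [MOD q']}) (α := 1 / q')
    (ε := 1) le_rfl (MeanSquareThickSets.mod_gap (by omega) a) (MeanSquareThickSets.mod_low (by omega) a) (by linarith) one_pos
  refine ⟨c₁, θ, T₀, hc₁, hθ, fun T hT => ?_⟩
  refine thick_mono (h6 T hT) (fun t ht => ⟨ht.1.1, ht.1.2, Nat.ModEq.of_dvd hdvd ht.2.1⟩) ?_ (fun t ht => ⟨ht.1, ht.2.1⟩)
  have e : {t : ℝ | T ≤ t ∧ t ≤ 2 * T ∧ N t ≡ a [MOD q]} = Set.Icc T (2 * T) ∩ N ⁻¹' {n | n ≡ a [MOD q]} := by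
    ext t
    exact ⟨fun h => ⟨⟨h.1, h.2.1⟩, h.2.2⟩, fun h => ⟨h.1.1, h.1.2, h.2⟩⟩
  rw [e]
  exact measurableSet_Icc.inter (N_meas MeasurableSet.of_discrete)

theorem result :
    -- 1. one scale; the disc is arbitrary
    (∀ c₀ θ₀ R : ℝ, 0 < c₀ → 0 < θ₀ → ∃ c₁ α₀ : ℝ, 0 < c₁ ∧ ∀ α : ℝ, α₀ ≤ α →
      (∃ θ T₀ : ℝ, 0 < θ ∧ ∀ T : ℝ, T₀ ≤ T → ∀ S : Set ℝ, Thick c₀ θ₀ T S → ∀ x y : ℝ, |x| ≤ R → |y| ≤ R →
        Thick c₁ θ T (near (1 + 8 / Real.sqrt c₀) x y α T S)) ∧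
      (∀ A : ℝ, ∃ κ T₀ : ℝ, 0 < κ ∧ ∀ T : ℝ, T₀ ≤ T → ∀ S : Set ℝ, Thick c₀ θ₀ T S → ∀ x y : ℝ, |x| ≤ R → |y| ≤ R →
        FullMoments κ A T (near (1 + 8 / Real.sqrt c₀) x y α T S))) ∧
    -- 2. many scales; all patterns of signs
    (∀ (m : ℕ) (c₀ θ₀ K B : ℝ), 0 < c₀ → 0 < θ₀ → 1 ≤ B →
      ∃ α : Fin m → ℝ, (∀ i, B ≤ α i) ∧ (∀ i j, i < j → B * α i ≤ α j) ∧
        (∃ c₁ θ T₀ : ℝ, 0 < c₁ ∧ 0 < θ ∧ ∀ T : ℝ, T₀ ≤ T → ∀ S : Set ℝ, Thick c₀ θ₀ T S →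
          ∀ σ τ : Fin m → ℝ, (∀ i, |σ i| = 1 ∧ |τ i| = 1) → Thick c₁ θ T (pattern α σ τ K T S)) ∧
        (∀ A : ℝ, ∃ κ T₀ : ℝ, 0 < κ ∧ ∀ T : ℝ, T₀ ≤ T → ∀ S : Set ℝ, Thick c₀ θ₀ T S →
          ∀ σ τ : Fin m → ℝ, (∀ i, |σ i| = 1 ∧ |τ i| = 1) → FullMoments κ A T (pattern α σ τ K T S))) ∧
    -- 3. the heights with a prescribed residue of `N(t)`; all heights if `q = 1`
    (∀ (m q a : ℕ) (K B : ℝ), 1 ≤ q → q ≤ 6 → 1 ≤ B →
      ∃ α : Fin m → ℝ, (∀ i, B ≤ α i) ∧ (∀ i j, i < j → B * α i ≤ α j) ∧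
        ∀ A : ℝ, ∃ κ T₀ : ℝ, 0 < κ ∧ ∀ T : ℝ, T₀ ≤ T → ∀ σ τ : Fin m → ℝ, (∀ i, |σ i| = 1 ∧ |τ i| = 1) →
          FullMoments κ A T (pattern α σ τ K T {t : ℝ | T ≤ t ∧ t ≤ 2 * T ∧ N t ≡ a [MOD q]})) := by
  have many : ∀ (m : ℕ) (c₀ θ₀ K B : ℝ), 0 < c₀ → 0 < θ₀ → 1 ≤ B →
      ∃ α : Fin m → ℝ, (∀ i, B ≤ α i) ∧ (∀ i j, i < j → B * α i ≤ α j) ∧
        (∃ c₁ θ T₀ : ℝ, 0 < c₁ ∧ 0 < θ ∧ ∀ T : ℝ, T₀ ≤ T → ∀ S : Set ℝ, Thick c₀ θ₀ T S →
          ∀ σ τ : Fin m → ℝ, (∀ i, |σ i| = 1 ∧ |τ i| = 1) → Thick c₁ θ T (pattern α σ τ K T S)) ∧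
        (∀ A : ℝ, ∃ κ T₀ : ℝ, 0 < κ ∧ ∀ T : ℝ, T₀ ≤ T → ∀ S : Set ℝ, Thick c₀ θ₀ T S →
          ∀ σ τ : Fin m → ℝ, (∀ i, |σ i| = 1 ∧ |τ i| = 1) → FullMoments κ A T (pattern α σ τ K T S)) := by
    intro m c₀ θ₀ K B hc₀ hθ₀ hB
    obtain ⟨α, k1, k2, c₁, θ, T₀, hc₁, hθ, k3⟩ := scales m c₀ θ₀ K B hc₀ hθ₀ hB
    refine ⟨α, k1, k2, ⟨c₁, θ, T₀, hc₁, hθ, k3⟩, fun A => ?_⟩
    obtain ⟨κ, T₁, hκ, h⟩ := moments hc₁ hθ A
    exact ⟨κ, max T₀ T₁, hκ, fun T hT S hS σ τ hst => h T ((le_max_right _ _).trans hT) _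
      (k3 T ((le_max_left _ _).trans hT) S hS σ τ hst)⟩
  refine ⟨fun c₀ θ₀ R hc₀ hθ₀ => ?_, many, fun m q a K B hq hq6 hB => ?_⟩
  · obtain ⟨c₁, α₀, hc₁, h⟩ := oneScale hc₀ hθ₀ R
    refine ⟨c₁, α₀, hc₁, fun α hα => ?_⟩
    obtain ⟨θ, T₀, hθ, h⟩ := h α hα
    refine ⟨⟨θ, T₀, hθ, h⟩, fun A => ?_⟩
    obtain ⟨κ, T₁, hκ, h1⟩ := moments hc₁ hθ A
    exact ⟨κ, max T₀ T₁, hκ, fun T hT S hS x y hx hy => h1 T ((le_max_right _ _).trans hT) _
      (h T ((le_max_left _ _).trans hT) S hS x y hx hy)⟩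
  · obtain ⟨c₀, θ₀, T₀, hc₀, hθ₀, h⟩ := classes hq hq6 a
    obtain ⟨α, k1, k2, -, k4⟩ := many m c₀ θ₀ K B hc₀ hθ₀ hB
    refine ⟨α, k1, k2, fun A => ?_⟩
    obtain ⟨κ, T₁, hκ, h1⟩ := k4 A
    exact ⟨κ, max T₀ T₁, hκ, fun T hT σ τ hst => h1 T ((le_max_right _ _).trans hT) _ (h T ((le_max_left _ _).trans hT)) σ τ hst⟩

end

end Pool.Agent.Results.MP_39df77_nt.FluctuationsOnThickSets
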